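import Pool.Agent.V113.Wn.Stmt

namespace V113.Wn
open CategoryTheory CategoryTheory.Limits DirectSum

universe u w

variable {R : Type u} [CommRing R] [HasDerivedCategory.{w} (ModuleCat.{u} R)]

/-- the module `M` in degree `0` satisfies `P`. -/
def Cl (P : ObjectProperty (DerivedCategory (ModuleCat.{u} R))) (M : Type u) [AddCommGroup M]
    [Module R M] : Prop :=
  P ((DerivedCategory.singleFunctor (ModuleCat.{u} R) 0).obj (ModuleCat.of R M))

variable {P : ObjectProperty (DerivedCategory (ModuleCat.{u} R))} (hP : IsLocalizing P)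
include hP

section
variable {A B C : Type u} [AddCommGroup A] [Module R A] [AddCommGroup B] [Module R B]
  [AddCommGroup C] [Module R C]

theorem Cl.congr (e : A ≃ₗ[R] B) (h : Cl P A) : Cl P B := by
  have := hP.isClosedUnderIso
  exact P.prop_of_iso ((DerivedCategory.singleFunctor (ModuleCat.{u} R) 0).mapIso
    e.toModuleIso) h

theorem ses (f : A →ₗ[R] B) (g : B →ₗ[R] C) (hf : Function.Injective f)
    (hg : Function.Surjective g) (hfg : Function.Exact f g) :
    (Cl P A → Cl P B → Cl P C) ∧ (Cl P A → Cl P C → Cl P B) ∧ (Cl P B → Cl P C → Cl P A) := by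
  have := hP.isClosedUnderIso
  have := hP.isTriangulated
  have hS := ModuleCat.shortComplex_shortExact
    (ModuleCat.shortComplexOfCompEqZero f g hfg.linearMap_comp_eq_zero) hfg hf hg
  have hT := hS.singleTriangle_distinguished
  exact ⟨fun h1 h2 => P.ext_of_isTriangulatedClosed₃ _ hT h1 h2,
    fun h1 h3 => P.ext_of_isTriangulatedClosed₂ _ hT h1 h3,
    fun h2 h3 => P.ext_of_isTriangulatedClosed₁ _ hT h2 h3⟩

end

theorem Cl.directSum {ι : Type u} (M : ι → Type u) [∀ i, AddCommGroup (M i)]
    [∀ i, Module R (M i)] (h : ∀ i, Cl P (M i)) : Cl P (⨁ i, M i) := by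
  classical
  have := hP.isClosedUnderIso
  have h1 := hP.sums ι (fun i => (HomologicalComplex.single (ModuleCat.{u} R)
    (ComplexShape.up ℤ) 0).obj (ModuleCat.of R (M i))) h
  have e1 := PreservesCoproduct.iso (HomologicalComplex.single (ModuleCat.{u} R)
    (ComplexShape.up ℤ) 0) (fun i => ModuleCat.of R (M i))
  have e2 := (HomologicalComplex.single (ModuleCat.{u} R)
    (ComplexShape.up ℤ) 0).mapIso (ModuleCat.coprodIsoDirectSum (fun i => ModuleCat.of R (M i)))
  exact P.prop_of_iso (DerivedCategory.Q.mapIso (e1.symm ≪≫ e2)) h1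

end V113.Wn

namespace V113.Wn
open CategoryTheory CategoryTheory.Limits DirectSum

universe w

section tele
variable {R : Type} [CommRing R] {W : Type} [AddCommGroup W] [Module R W] (N : ℕ → Submodule R W)
    (hN : Monotone N)

/-- the shift difference map -/
noncomputable def telF : (⨁ j, N j) →ₗ[R] (⨁ j, N j) :=
  DirectSum.toModule R ℕ _ (fun j => DirectSum.lof R ℕ (fun j => N j) j -
    (DirectSum.lof R ℕ (fun j => N j) (j + 1)).comp (Submodule.inclusion (hN (Nat.le_succ j))))

/-- the sum map -/
noncomputable def telG : (⨁ j, N j) →ₗ[R] W :=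
  DirectSum.toModule R ℕ W (fun j => (N j).subtype)

theorem telF_lof (j : ℕ) (x : N j) : telF N hN (DirectSum.lof R ℕ (fun j => N j) j x) =
    DirectSum.lof R ℕ (fun j => N j) j x - DirectSum.lof R ℕ (fun j => N j) (j + 1)
      (Submodule.inclusion (hN (Nat.le_succ j)) x) := by
  rw [telF, DirectSum.toModule_lof]; rfl

theorem telG_lof (j : ℕ) (x : N j) : telG N (DirectSum.lof R ℕ (fun j => N j) j x) = x := by
  rw [telG, DirectSum.toModule_lof]; rfl

theorem telF_zero (x : ⨁ j, N j) : ((telF N hN x 0 : N 0) : W) = (x 0 : W) := by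
  classical
  induction x using DirectSum.induction_on with
  | zero => simp
  | of j y =>
    have := telF_lof N hN j y
    rw [DirectSum.lof_eq_of] at this
    rw [this]
    simp [DirectSum.lof_eq_of, DirectSum.of_apply]
  | add x y hx hy => simp [hx, hy]

theorem telF_succ (x : ⨁ j, N j) (k : ℕ) : ((telF N hN x (k + 1) : N (k + 1)) : W) =
    (x (k + 1) : W) - (x k : W) := by
  classical
  induction x using DirectSum.induction_on with
  | zero => simp
  | of j y =>
    have := telF_lof N hN j y
    rw [DirectSum.lof_eq_of] at this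
    rw [this]
    simp only [DirectSum.lof_eq_of, DirectSum.sub_apply, AddSubgroupClass.coe_sub,
      Submodule.coe_sub, DirectSum.of_apply]
    by_cases h1 : j = k + 1
    · subst h1
      simp
    · by_cases h2 : j = k
      · subst h2
        simp
      · have h3 : j + 1 ≠ k + 1 := fun h => h2 (by omega)
        simp [h1, h2, h3]
  | add x y hx hy => simp [hx, hy]; abel

theorem telF_inj : Function.Injective (telF N hN) := by
  rw [injective_iff_map_eq_zero]
  intro x hx
  have key : ∀ k, (x k : W) = 0 := by
    intro k
    induction k with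
    | zero => rw [← telF_zero N hN x, hx]; simp
    | succ k ih =>
      have := telF_succ N hN x k
      rw [hx, ih] at this
      simpa using this.symm
  ext k
  simpa using key k

theorem telF_range_of_le {n m : ℕ} (h : n ≤ m) (y : N n) :
    DirectSum.lof R ℕ (fun j => N j) n y - DirectSum.lof R ℕ (fun j => N j) m
      (Submodule.inclusion (hN h) y) ∈ LinearMap.range (telF N hN) := by
  induction m, h using Nat.le_induction with
  | base => 
    have : Submodule.inclusion (hN (le_refl n)) y = y := by ext; rfl
    rw [this, sub_self]; exact Submodule.zero_mem _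
  | succ m hm ih =>
    have h2 : DirectSum.lof R ℕ (fun j => N j) m (Submodule.inclusion (hN hm) y) -
      DirectSum.lof R ℕ (fun j => N j) (m + 1) (Submodule.inclusion (hN (Nat.le_succ_of_le hm)) y)
      ∈ LinearMap.range (telF N hN) := ⟨_, telF_lof N hN m _⟩
    have := Submodule.add_mem _ ih h2
    rwa [sub_add_sub_cancel] at this

theorem telFG (x : ⨁ j, N j) : ∃ n, ∃ w : N n, (w : W) = telG N x ∧
    x - DirectSum.lof R ℕ (fun j => N j) n w ∈ LinearMap.range (telF N hN) := by
  classical
  induction x using DirectSum.induction_on with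
  | zero => exact ⟨0, 0, by simp, by simp⟩
  | of j y => exact ⟨j, y, (telG_lof N j y).symm, by
      rw [DirectSum.lof_eq_of, sub_self]; exact Submodule.zero_mem _⟩
  | add x y hx hy =>
    obtain ⟨n, w, hw, h1⟩ := hx
    obtain ⟨m, v, hv, h2⟩ := hy
    refine ⟨max n m, Submodule.inclusion (hN (le_max_left n m)) w +
      Submodule.inclusion (hN (le_max_right n m)) v, ?_, ?_⟩
    · rw [map_add, ← hw, ← hv]; rfl
    · have h3 := telF_range_of_le N hN (le_max_left n m) w
      have h4 := telF_range_of_le N hN (le_max_right n m) v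
      have := Submodule.add_mem _ (Submodule.add_mem _ h1 h3) (Submodule.add_mem _ h2 h4)
      rw [map_add]
      convert this using 1
      abel

end tele

/-- Telescope: a module which is the union of a countable chain of submodules in `P`. -/
theorem Cl.telescope {R : Type} [CommRing R] [HasDerivedCategory.{w} (ModuleCat.{0} R)]
    {P : ObjectProperty (DerivedCategory (ModuleCat.{0} R))} (hP : IsLocalizing P)
    {W : Type} [AddCommGroup W] [Module R W] (N : ℕ → Submodule R W)
    (hN : Monotone N) (htop : ∀ x, ∃ j, x ∈ N j) (h : ∀ j, Cl P (N j)) : Cl P W := by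
  classical
  have hs : Cl P (⨁ j : ℕ, N j) := Cl.directSum hP _ (fun j => h j)
  refine (ses hP (telF N hN) (telG N) (telF_inj N hN) ?_ ?_).1 hs hs
  · intro x
    obtain ⟨j, hj⟩ := htop x
    exact ⟨DirectSum.lof R ℕ (fun j => N j) j ⟨x, hj⟩, telG_lof N j _⟩
  · intro x
    constructor
    · intro hx
      obtain ⟨n, w, hw, y, hy⟩ := telFG N hN x
      rw [hx] at hw
      have hw0 : w = 0 := by ext; simpa using hw
      rw [hw0, map_zero, sub_zero] at hy
      exact ⟨y, hy⟩
    · rintro ⟨y, rfl⟩
      have : (telG N).comp (telF N hN) = 0 := by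
        apply DirectSum.linearMap_ext
        intro j
        ext y
        simp only [LinearMap.comp_apply, telF_lof, map_sub, telG_lof]
        simp
      exact LinearMap.congr_fun this y

end V113.Wn
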