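import Mathlib

namespace V113.Wn
open PowerSeries

/-- Sequences of power series over `ℚ` with a common constant term `c`, equal to `c` from some
point on. -/
noncomputable def Rsub : Subring (ℕ → PowerSeries ℚ) where
  carrier := {f | ∃ c : ℚ, (∀ n, constantCoeff (f n) = c) ∧ ∃ N, ∀ n, N ≤ n → f n = C c}
  mul_mem' := by
    rintro f g ⟨c, hc, N, hN⟩ ⟨d, hd, M, hM⟩
    refine ⟨c * d, fun n => by simp [hc n, hd n], max N M, fun n hn => ?_⟩
    simp [hN n (le_trans (le_max_left _ _) hn), hM n (le_trans (le_max_right _ _) hn)]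
  one_mem' := ⟨1, fun n => by simp, 0, fun n _ => by simp⟩
  add_mem' := by
    rintro f g ⟨c, hc, N, hN⟩ ⟨d, hd, M, hM⟩
    refine ⟨c + d, fun n => by simp [hc n, hd n], max N M, fun n hn => ?_⟩
    simp [hN n (le_trans (le_max_left _ _) hn), hM n (le_trans (le_max_right _ _) hn)]
  zero_mem' := ⟨0, fun n => by simp, 0, fun n _ => by simp⟩
  neg_mem' := by
    rintro f ⟨c, hc, N, hN⟩
    exact ⟨-c, fun n => by simp [hc n], N, fun n hn => by simp [hN n hn]⟩

/-- the bouquet ring -/
abbrev A : Type := Rsub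

/-- `n`-th coordinate -/
noncomputable def ev (n : ℕ) : A →+* PowerSeries ℚ := (Pi.evalRingHom _ n).comp Rsub.subtype

/-- common constant term -/
noncomputable def eps : A →+* ℚ := (constantCoeff (R := ℚ)).comp (ev 0)

theorem ev_apply (n : ℕ) (f : A) : ev n f = f.1 n := rfl

theorem ext_ev {f g : A} (h : ∀ n, ev n f = ev n g) : f = g := Subtype.ext (funext h)

theorem const_ev (n : ℕ) (f : A) : constantCoeff (ev n f) = eps f := by
  obtain ⟨c, hc, -⟩ := f.2
  exact (hc n).trans (hc 0).symm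

theorem tail_ev (f : A) : ∃ N, ∀ n, N ≤ n → ev n f = C (eps f) := by
  obtain ⟨c, hc, N, hN⟩ := f.2
  refine ⟨N, fun n hn => ?_⟩
  have : eps f = c := hc 0
  rw [this]
  exact hN n hn

/-- element with `n`-th coordinate `h` and the other coordinates constant. -/
noncomputable def lift (n : ℕ) (h : PowerSeries ℚ) : A :=
  ⟨fun k => if k = n then h else C (constantCoeff h), constantCoeff h,
    fun k => by by_cases hk : k = n <;> simp [hk], n + 1, fun k hk => by
      have : k ≠ n := by omega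
      simp [this]⟩

theorem ev_lift_self (n : ℕ) (h : PowerSeries ℚ) : ev n (lift n h) = h := by
  simp [ev_apply, lift]

theorem ev_lift_ne {n k : ℕ} (hk : k ≠ n) (h : PowerSeries ℚ) :
    ev k (lift n h) = C (constantCoeff h) := by
  simp [ev_apply, lift, hk]

theorem ev_surj (n : ℕ) : Function.Surjective (ev n) := fun h => ⟨_, ev_lift_self n h⟩

theorem eps_surj : Function.Surjective eps := fun c =>
  ⟨lift 0 (C c), by simp [eps, ev_lift_self]⟩

/-- the uniformizer on the `n`-th branch -/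
noncomputable def t (n : ℕ) : A := lift n X

theorem ev_t_self (n : ℕ) : ev n (t n) = X := ev_lift_self n X

theorem ev_t_ne {n k : ℕ} (hk : k ≠ n) : ev k (t n) = 0 := by
  rw [t, ev_lift_ne hk]; simp

theorem isUnit_of_eps {f : A} (hf : eps f ≠ 0) : IsUnit f := by
  obtain ⟨N, hN⟩ := tail_ev f
  have hg : (fun n => (ev n f)⁻¹) ∈ Rsub := by
    refine ⟨(eps f)⁻¹, fun n => ?_, N, fun n hn => ?_⟩
    · simp [constantCoeff_inv, const_ev]
    · simp only [hN n hn]
      rw [PowerSeries.C_inv]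
  refine IsUnit.of_mul_eq_one (⟨_, hg⟩ : A) (ext_ev fun n => ?_)
  rw [map_mul, map_one]
  exact PowerSeries.mul_inv_cancel _ (by rwa [const_ev])

/-- Every element of the maximal ideal is divisible by `t n` on the branch `n`. -/
theorem exists_mul_t {f : A} (hf : eps f = 0) (n : ℕ) :
    ∃ s : A, ev n (s * t n) = ev n f ∧ ∀ k ≠ n, ev k (s * t n) = 0 := by
  have : X ∣ ev n f := X_dvd_iff.2 (by rw [const_ev, hf])
  obtain ⟨h, hh⟩ := this
  refine ⟨lift n h, ?_, fun k hk => ?_⟩
  · rw [map_mul, ev_lift_self, ev_t_self, hh, mul_comm]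
  · rw [map_mul, ev_t_ne hk, mul_zero]

theorem sum_of_eps {f : A} (hf : eps f = 0) :
    ∃ s : ℕ → A, ∃ N, f = ∑ n ∈ Finset.range N, s n * t n := by
  choose s hs1 hs2 using fun n => exists_mul_t hf n
  obtain ⟨N, hN⟩ := tail_ev f
  refine ⟨s, N, ext_ev fun k => ?_⟩
  rw [map_sum]
  by_cases hk : k < N
  · rw [Finset.sum_eq_single k, hs1 k]
    · intro b _ hb
      exact hs2 b k hb.symm
    · intro h; exact absurd (Finset.mem_range.2 hk) h
  · rw [hN k (by omega), hf, map_zero, Finset.sum_eq_zero]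
    intro b hb
    refine hs2 b k ?_
    rintro rfl
    exact hk (Finset.mem_range.1 hb)

instance : (RingHom.ker eps).IsMaximal := RingHom.ker_isMaximal_of_surjective _ eps_surj

instance (n : ℕ) : (RingHom.ker (ev n)).IsPrime := RingHom.ker_isPrime _

theorem le_ker_eps (I : Ideal A) (hI : I ≠ ⊤) : I ≤ RingHom.ker eps := by
  intro f hf
  by_contra h
  exact hI (Ideal.eq_top_of_isUnit_mem _ hf (isUnit_of_eps h))

theorem eps_t (n : ℕ) : eps (t n) = 0 := by
  rw [← const_ev n, ev_t_self, constantCoeff_X]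

/-- A prime not containing the maximal ideal misses some `t n`. -/
theorem exists_t_notMem (P : Ideal A) [P.IsPrime] (hP : P ≠ RingHom.ker eps) : ∃ n, t n ∉ P := by
  by_contra h
  push Not at h
  apply hP
  refine le_antisymm (le_ker_eps _ (Ideal.IsPrime.ne_top ‹_›)) fun f hf => ?_
  obtain ⟨s, N, hs⟩ := sum_of_eps (show eps f = 0 from hf)
  rw [hs]
  exact Ideal.sum_mem _ fun n _ => Ideal.mul_mem_left _ _ (h n)

/-- the closed point -/
noncomputable def mpt : PrimeSpectrum A := ⟨RingHom.ker eps, inferInstance⟩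

/-- the `n`-th minimal prime -/
noncomputable def ppt (n : ℕ) : PrimeSpectrum A := ⟨RingHom.ker (ev n), inferInstance⟩

theorem mpt_mem_of_isClosed {Z : Set (PrimeSpectrum A)} (hZ : IsClosed Z) (hne : Z.Nonempty) :
    mpt ∈ Z := by
  obtain ⟨x, hx⟩ := hne
  have h : x ⤳ mpt := (PrimeSpectrum.le_iff_specializes x mpt).1
    (le_ker_eps _ x.2.ne_top)
  exact h.mem_closed hZ hx

theorem not_compact : ¬ IsCompact ({mpt}ᶜ : Set (PrimeSpectrum A)) := by
  intro hc
  have hcover : ({mpt}ᶜ : Set (PrimeSpectrum A)) ⊆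
      ⋃ n : ℕ, (PrimeSpectrum.basicOpen (t n) : Set (PrimeSpectrum A)) := by
    intro x hx
    have : x.asIdeal ≠ RingHom.ker eps := fun h => hx (PrimeSpectrum.ext h)
    obtain ⟨n, hn⟩ := exists_t_notMem x.asIdeal this
    exact Set.mem_iUnion.2 ⟨n, hn⟩
  obtain ⟨T, hT⟩ := hc.elim_finite_subcover _ (fun n => PrimeSpectrum.isOpen_basicOpen) hcover
  obtain ⟨m, hm⟩ := Infinite.exists_notMem_finset T
  have h1 : ppt m ∈ ({mpt}ᶜ : Set (PrimeSpectrum A)) := by
    intro h
    have h2 : (ppt m).asIdeal = mpt.asIdeal := congrArg PrimeSpectrum.asIdeal h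
    have h3 : t m ∈ (ppt m).asIdeal := by
      rw [h2]; exact eps_t m
    have h4 : ev m (t m) = 0 := h3
    rw [ev_t_self] at h4
    exact X_ne_zero h4
  have h2 := hT h1
  simp only [Set.mem_iUnion] at h2
  obtain ⟨n, hn, h3⟩ := h2
  apply h3
  change ev m (t n) = 0
  exact ev_t_ne (fun h => hm (h ▸ hn))

end V113.Wn
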