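import Pool.Agent.V113.Wn.Cl
import Pool.Agent.V113.Wn.Ring

namespace V113.Wn
open PowerSeries DirectSum CategoryTheory

universe w

theorem not_weaklyNoetherian : ¬ WeaklyNoetherian (PrimeSpectrum A) := by
  intro h
  obtain ⟨Y₁, Y₂, ⟨Z₁, hZ₁, rfl⟩, ⟨Z₂, hZ₂, rfl⟩, hY⟩ := h mpt
  have hm : mpt ∈ ⋃₀ Z₁ ∩ (⋃₀ Z₂)ᶜ := hY ▸ rfl
  have hY2 : ∀ z, z ∉ ⋃₀ Z₂ := by
    rintro z ⟨Z, hZ, hz⟩
    exact hm.2 ⟨Z, hZ, mpt_mem_of_isClosed (hZ₂ Z hZ).1 ⟨z, hz⟩⟩
  obtain ⟨Z, hZ, hmZ⟩ := hm.1
  have : Z = {mpt} := by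
    ext z
    constructor
    · intro hz
      have : z ∈ ⋃₀ Z₁ ∩ (⋃₀ Z₂)ᶜ := ⟨⟨Z, hZ, hz⟩, hY2 z⟩
      rw [← hY] at this
      exact this
    · rintro rfl
      exact hmZ
  exact not_compact (this ▸ (hZ₁ Z hZ).2)

theorem Cl.of_ker {R : Type} [CommRing R] [HasDerivedCategory.{w} (ModuleCat.{0} R)]
    {P : ObjectProperty (DerivedCategory (ModuleCat.{0} R))} (hP : IsLocalizing P)
    {M N : Type} [AddCommGroup M] [Module R M] [AddCommGroup N] [Module R N]
    (f : R →ₗ[R] M) (g : R →ₗ[R] N) (hf : Function.Surjective f) (hg : Function.Surjective g)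
    (hfg : ∀ r, f r = 0 ↔ g r = 0) (h : Cl P M) : Cl P N := by
  have hk : LinearMap.ker f = LinearMap.ker g := by
    ext r; exact hfg r
  exact Cl.congr hP ((f.quotKerEquivOfSurjective hf).symm.trans
    ((Submodule.quotEquivOfEq _ _ hk).trans (g.quotKerEquivOfSurjective hg))) h

/-- the ideal of the `n`-th branch -/
noncomputable def In (n : ℕ) : Submodule A A := LinearMap.range (LinearMap.toSpanSingleton A A (t n))

theorem ev_of_mem_In {n k : ℕ} (hk : k ≠ n) {x : A} (hx : x ∈ In n) : ev k x = 0 := by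
  obtain ⟨r, rfl⟩ := hx
  simp [ev_t_ne hk]

section branch
variable [HasDerivedCategory.{w} (ModuleCat.{0} A)]
    {P : ObjectProperty (DerivedCategory (ModuleCat.{0} A))} (hP : IsLocalizing P)
    {M : Type} [AddCommGroup M] [Module A M] (f₀ : A →ₗ[A] M) (hf₀ : Function.Surjective f₀)
    (hk₀ : ∀ r, f₀ r = 0 ↔ eps r = 0) (hM : Cl P M)
    (n : ℕ) {K : Type} [Field K] [Algebra A K]
    (h1 : ∀ a : A, algebraMap A K a = 0 ↔ ev n a = 0)
    (h2 : ∀ x : K, ∃ a b : A, algebraMap A K b ≠ 0 ∧ x * algebraMap A K b = algebraMap A K a)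
    (hK : Cl P K)

/-- the image of `A` in `K` -/
noncomputable def Lr (K : Type) [Field K] [Algebra A K] : Submodule A K :=
  LinearMap.range (Algebra.linearMap A K)

/-- the `t^j`-torsion of `K/L` -/
noncomputable def Nj (K : Type) [Field K] [Algebra A K] (n j : ℕ) : Submodule A (K ⧸ Lr K) :=
  LinearMap.ker (LinearMap.lsmul A (K ⧸ Lr K) (t n ^ j))

omit [HasDerivedCategory.{w} (ModuleCat.{0} A)] in
theorem mem_Nj (j : ℕ) (w : K ⧸ Lr K) : w ∈ Nj K n j ↔ t n ^ j • w = 0 := Iff.rfl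

omit [HasDerivedCategory.{w} (ModuleCat.{0} A)] in
theorem mk_mem_Nj (j : ℕ) (x : K) : Submodule.Quotient.mk x ∈ Nj K n j ↔
    ∃ a : A, algebraMap A K a = algebraMap A K (t n) ^ j * x := by
  rw [mem_Nj, ← Submodule.Quotient.mk_smul, Submodule.Quotient.mk_eq_zero, Algebra.smul_def,
    map_pow]
  exact Iff.rfl

omit [HasDerivedCategory.{w} (ModuleCat.{0} A)] in
include h1 in
theorem eq_of_ev {a b : A} (h : ev n a = ev n b) : algebraMap A K a = algebraMap A K b := by
  rw [← sub_eq_zero, ← map_sub, h1, map_sub, h, sub_self]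

omit [HasDerivedCategory.{w} (ModuleCat.{0} A)] in
include h1 in
theorem tau_ne : algebraMap A K (t n) ≠ 0 := by
  rw [Ne, h1, ev_t_self]
  exact X_ne_zero

omit [HasDerivedCategory.{w} (ModuleCat.{0} A)] in
include h1 h2 in
theorem exists_Nj (w : K ⧸ Lr K) : ∃ j, w ∈ Nj K n j := by
  obtain ⟨x, rfl⟩ := Submodule.Quotient.mk_surjective _ w
  obtain ⟨a, b, hb, hab⟩ := h2 x
  have hb' : ev n b ≠ 0 := fun h => hb ((h1 b).2 h)
  have hu : constantCoeff (divXPowOrder (ev n b)) ≠ 0 := fun h =>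
    hb' (constantCoeff_divXPowOrder_eq_zero_iff.1 h)
  refine ⟨(ev n b).order.toNat, (mk_mem_Nj n _ x).2
    ⟨lift n (divXPowOrder (ev n b))⁻¹ * a, ?_⟩⟩
  have h3 : algebraMap A K (lift n (divXPowOrder (ev n b))⁻¹ * b) =
      algebraMap A K (t n ^ (ev n b).order.toNat) := by
    apply eq_of_ev n h1
    rw [map_mul, map_pow, ev_lift_self, ev_t_self]
    calc (divXPowOrder (ev n b))⁻¹ * ev n b
        = (divXPowOrder (ev n b))⁻¹ * (X ^ (ev n b).order.toNat * divXPowOrder (ev n b)) := by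
          rw [X_pow_order_mul_divXPowOrder]
      _ = X ^ (ev n b).order.toNat * (divXPowOrder (ev n b) * (divXPowOrder (ev n b))⁻¹) := by
          ring
      _ = _ := by rw [PowerSeries.mul_inv_cancel _ hu, mul_one]
  rw [← map_pow, ← h3, map_mul, map_mul, ← hab]
  ring

include hP f₀ hf₀ hk₀ hM h1 in
theorem cl_N1 : Cl P (Nj K n 1) := by
  have hτ := tau_ne n h1
  have hx : Submodule.Quotient.mk (algebraMap A K (t n))⁻¹ ∈ Nj K n 1 := by
    rw [mk_mem_Nj]
    exact ⟨1, by rw [map_one, pow_one, mul_inv_cancel₀ hτ]⟩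
  refine Cl.of_ker hP f₀ (LinearMap.toSpanSingleton A (Nj K n 1) ⟨_, hx⟩) hf₀ ?_ ?_ hM
  · rintro ⟨w, hw⟩
    obtain ⟨x, rfl⟩ := Submodule.Quotient.mk_surjective _ w
    obtain ⟨a, ha⟩ := (mk_mem_Nj n 1 x).1 hw
    refine ⟨a, Subtype.ext ?_⟩
    change a • (Submodule.Quotient.mk (algebraMap A K (t n))⁻¹ : K ⧸ Lr K) = _
    rw [← Submodule.Quotient.mk_smul, Algebra.smul_def, ha, pow_one]
    congr 1
    field_simp
  · intro r
    rw [hk₀, ← Subtype.coe_inj]
    change _ ↔ r • (Submodule.Quotient.mk (algebraMap A K (t n))⁻¹ : K ⧸ Lr K) = 0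
    rw [← Submodule.Quotient.mk_smul, Algebra.smul_def, Submodule.Quotient.mk_eq_zero]
    constructor
    · intro hr
      obtain ⟨s, hs, -⟩ := exists_mul_t hr n
      have := eq_of_ev n h1 hs
      refine ⟨s, ?_⟩
      rw [Algebra.linearMap_apply, ← this, map_mul, mul_assoc, mul_inv_cancel₀ hτ, mul_one]
    · rintro ⟨s, hs⟩
      rw [Algebra.linearMap_apply] at hs
      have h3 : algebraMap A K (r - s * t n) = 0 := by
        rw [map_sub, map_mul, hs, mul_assoc, inv_mul_cancel₀ hτ, mul_one, sub_self]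
      rw [h1, map_sub, sub_eq_zero, map_mul, ev_t_self] at h3
      rw [← const_ev n, h3]
      simp

include hP f₀ hf₀ hk₀ hM h1 hK in
theorem cl_Nj (j : ℕ) : Cl P (Nj K n j) := by
  have hτ := tau_ne n h1
  induction j with
  | zero =>
    have : Subsingleton (Nj K n 0) := by
      refine subsingleton_of_forall_eq 0 ?_
      rintro ⟨w, hw⟩
      rw [mem_Nj, pow_zero, one_smul] at hw
      exact Subtype.ext hw
    refine (ses hP (LinearMap.id : K →ₗ[A] K) (0 : K →ₗ[A] Nj K n 0) Function.injective_id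
      (fun x => ⟨0, Subsingleton.elim _ _⟩) ?_).1 hK hK
    intro x
    simp
  | succ j ih =>
    have hle : Nj K n 1 ≤ Nj K n (j + 1) := by
      intro w hw
      rw [mem_Nj, pow_one] at hw
      rw [mem_Nj, pow_succ, mul_smul, hw, smul_zero]
    have hg : ∀ w ∈ Nj K n (j + 1), LinearMap.lsmul A (K ⧸ Lr K) (t n) w ∈ Nj K n j := by
      intro w hw
      rw [mem_Nj, pow_succ, mul_smul] at hw
      exact hw
    refine (ses hP (Submodule.inclusion hle) ((LinearMap.lsmul A (K ⧸ Lr K) (t n)).restrict hg)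
      (Submodule.inclusion_injective hle) ?_ ?_).2.1 (cl_N1 hP f₀ hf₀ hk₀ hM n h1) ih
    · rintro ⟨w, hw⟩
      obtain ⟨x, rfl⟩ := Submodule.Quotient.mk_surjective _ w
      have h3 : t n • (Submodule.Quotient.mk ((algebraMap A K (t n))⁻¹ * x) : K ⧸ Lr K) =
          Submodule.Quotient.mk x := by
        rw [← Submodule.Quotient.mk_smul, Algebra.smul_def, ← mul_assoc, mul_inv_cancel₀ hτ,
          one_mul]
      refine ⟨⟨Submodule.Quotient.mk ((algebraMap A K (t n))⁻¹ * x), ?_⟩, Subtype.ext h3⟩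
      rw [mem_Nj, pow_succ, mul_smul, h3]
      exact hw
    · rintro ⟨w, hw⟩
      constructor
      · intro h
        have h3 : t n • w = 0 := congrArg Subtype.val h
        exact ⟨⟨w, by rw [mem_Nj, pow_one]; exact h3⟩, rfl⟩
      · rintro ⟨⟨v, hv⟩, h⟩
        have h3 : v = w := congrArg Subtype.val h
        subst h3
        rw [mem_Nj, pow_one] at hv
        exact Subtype.ext hv

include hP f₀ hf₀ hk₀ hM h1 h2 hK in
theorem cl_In : Cl P (In n) := by
  have hW : Cl P (K ⧸ Lr K) := by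
    refine Cl.telescope hP (Nj K n) ?_ (exists_Nj n h1 h2)
      (cl_Nj hP f₀ hf₀ hk₀ hM n h1 hK)
    intro i j hij w hw
    rw [mem_Nj] at hw ⊢
    rw [← Nat.sub_add_cancel hij, pow_add, mul_smul, hw, smul_zero]
  have hL : Cl P (Lr K) := (ses hP (Lr K).subtype (Lr K).mkQ (Subtype.val_injective)
    (Submodule.mkQ_surjective _) (LinearMap.exact_subtype_mkQ _)).2.2 hK hW
  refine Cl.of_ker hP (Algebra.linearMap A K).rangeRestrict
    (LinearMap.toSpanSingleton A A (t n)).rangeRestrict (LinearMap.surjective_rangeRestrict _)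
    (LinearMap.surjective_rangeRestrict _) ?_ hL
  intro r
  rw [← Subtype.coe_inj, ← Subtype.coe_inj]
  change algebraMap A K r = 0 ↔ r * t n = 0
  rw [h1]
  constructor
  · intro h
    apply ext_ev
    intro k
    by_cases hk : k = n
    · subst hk
      rw [map_mul, h, zero_mul, map_zero]
    · rw [map_mul, ev_t_ne hk, mul_zero, map_zero]
  · intro h
    have h3 : ev n (r * t n) = 0 := by rw [h, map_zero]
    rw [map_mul, ev_t_self] at h3
    exact (mul_eq_zero.1 h3).resolve_right X_ne_zero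

end branch

/-- the sum map -/
noncomputable def G : (⨁ n, In n) →ₗ[A] A := DirectSum.toModule A ℕ A (fun n => (In n).subtype)

theorem G_of (n : ℕ) (x : In n) : G (DirectSum.of (fun n => In n) n x) = x := by
  have := DirectSum.toModule_lof (R := A) (ι := ℕ) (M := fun n => In n) (N := A)
    (φ := fun n => (In n).subtype) n x
  rw [DirectSum.lof_eq_of] at this
  exact this

theorem ev_G (x : ⨁ n, In n) (k : ℕ) : ev k (G x) = ev k (x k : A) := by
  classical
  induction x using DirectSum.induction_on with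
  | zero => simp
  | of j y =>
    rw [G_of, DirectSum.of_apply]
    by_cases h : j = k
    · subst h; simp
    · rw [dif_neg h, ev_of_mem_In (Ne.symm h) y.2]; simp
  | add x y hx hy => rw [map_add, map_add, hx, hy, DirectSum.add_apply]; simp

theorem G_inj : Function.Injective G := by
  rw [injective_iff_map_eq_zero]
  intro x hx
  refine DFinsupp.ext fun k => Subtype.ext (ext_ev fun i => ?_)
  change ev i (x k : A) = ev i 0
  rw [map_zero]
  by_cases h : i = k
  · subst h
    rw [← ev_G, hx, map_zero]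
  · exact ev_of_mem_In h (x k).2

theorem G_range (y : A) : y ∈ Set.range G ↔ eps y = 0 := by
  classical
  constructor
  · rintro ⟨x, rfl⟩
    rw [← const_ev 0, ev_G]
    obtain ⟨r, hr⟩ := (x 0).2
    have : constantCoeff (ev 0 (x 0 : A)) = eps (x 0 : A) := const_ev 0 _
    rw [this, ← hr, LinearMap.toSpanSingleton_apply, smul_eq_mul, map_mul, eps_t, mul_zero]
  · intro hy
    obtain ⟨s, N, hs⟩ := sum_of_eps hy
    refine ⟨∑ n ∈ Finset.range N, DirectSum.of (fun n => In n) n ⟨s n * t n, s n, rfl⟩, ?_⟩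
    rw [map_sum, hs]
    exact Finset.sum_congr rfl fun n _ => G_of n _

theorem star [HasDerivedCategory.{w} (ModuleCat.{0} A)] : Star A := by
  intro P hP hres
  have hM : Cl P (RingHom.ker eps).ResidueField := hres mpt
  have hf₀ : Function.Surjective (Algebra.linearMap A (RingHom.ker eps).ResidueField) :=
    Ideal.algebraMap_residueField_surjective _
  have hk₀ : ∀ r, Algebra.linearMap A (RingHom.ker eps).ResidueField r = 0 ↔ eps r = 0 :=
    fun r => Ideal.algebraMap_residueField_eq_zero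
  have hIn : ∀ n, Cl P (In n) := by
    intro n
    refine cl_In hP _ hf₀ hk₀ hM n (K := (RingHom.ker (ev n)).ResidueField)
      (fun a => Ideal.algebraMap_residueField_eq_zero) ?_ (hres (ppt n))
    intro x
    obtain ⟨a, b, hb, hx⟩ := IsFractionRing.div_surjective (A := A ⧸ RingHom.ker (ev n)) x
    obtain ⟨a, rfl⟩ := Ideal.Quotient.mk_surjective a
    obtain ⟨b, rfl⟩ := Ideal.Quotient.mk_surjective b
    have hb0 : algebraMap A (RingHom.ker (ev n)).ResidueField b ≠ 0 := by
      rw [Ne, Ideal.algebraMap_residueField_eq_zero, ← Ideal.Quotient.eq_zero_iff_mem]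
      exact nonZeroDivisors.ne_zero hb
    refine ⟨a, b, hb0, ?_⟩
    rw [← hx]
    exact div_mul_cancel₀ _ hb0
  have hS : Cl P (⨁ n, In n) := Cl.directSum hP _ hIn
  refine (ses hP G (Algebra.linearMap A (RingHom.ker eps).ResidueField) G_inj hf₀ ?_).2.1 hS hM
  intro y
  rw [hk₀, G_range]

end V113.Wn
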