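import Mathlib

namespace V113.Wn
open CategoryTheory CategoryTheory.Limits

universe u w

/-- A subset of a topological space is Thomason if it is a union of closed subsets, each having
(quasi-)compact complement. -/
def IsThomason {X : Type u} [TopologicalSpace X] (Y : Set X) : Prop :=
  ∃ 𝒵 : Set (Set X), (∀ Z ∈ 𝒵, IsClosed Z ∧ IsCompact Zᶜ) ∧ Y = ⋃₀ 𝒵

/-- A point `x` is weakly visible if `{x}` is the intersection of a Thomason subset and the
complement of a Thomason subset. -/
def WeaklyVisible {X : Type u} [TopologicalSpace X] (x : X) : Prop :=
  ∃ Y₁ Y₂ : Set X, IsThomason Y₁ ∧ IsThomason Y₂ ∧ ({x} : Set X) = Y₁ ∩ Y₂ᶜ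

/-- A space is weakly noetherian if all its points are weakly visible. -/
def WeaklyNoetherian (X : Type u) [TopologicalSpace X] : Prop := ∀ x : X, WeaklyVisible x

/-- A localizing subcategory of the derived category `D(R)`: a (strictly full) triangulated
subcategory closed under arbitrary direct sums.  Direct sums in `D(R)` are computed by direct sums
of complexes: for a (small) family `K` of cochain complexes, the direct sum in `D(R)` of the images
of the `K i` is the image of the complex `∐ K`. -/
structure IsLocalizing {R : Type u} [CommRing R] [HasDerivedCategory.{w} (ModuleCat.{u} R)]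
    (P : ObjectProperty (DerivedCategory (ModuleCat.{u} R))) : Prop where
  isTriangulated : P.IsTriangulated
  isClosedUnderIso : P.IsClosedUnderIsomorphisms
  sums : ∀ (ι : Type u) (K : ι → CochainComplex (ModuleCat.{u} R) ℤ),
    (∀ i, P (DerivedCategory.Q.obj (K i))) → P (DerivedCategory.Q.obj (∐ K))

/-- Condition (∗): `R`, placed in degree `0`, belongs to every localizing subcategory of `D(R)`
which contains all residue fields `κ(p)`, `p ∈ Spec R`, placed in degree `0`. -/
def Star (R : Type u) [CommRing R] [HasDerivedCategory.{w} (ModuleCat.{u} R)] : Prop :=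
  ∀ P : ObjectProperty (DerivedCategory (ModuleCat.{u} R)), IsLocalizing P →
    (∀ p : PrimeSpectrum R, P ((DerivedCategory.singleFunctor (ModuleCat.{u} R) 0).obj
      (ModuleCat.of R p.asIdeal.ResidueField))) →
    P ((DerivedCategory.singleFunctor (ModuleCat.{u} R) 0).obj (ModuleCat.of R R))

end V113.Wn
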